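import Pool.Agent.Helper54_Pak.Base
import Pool.Agent.Helper2_Pack.S2

/-!
# F1: the shape is solid below its top side, in all orientations
-/

namespace Pool.Agent.Helper2_Pak.H72

open Pool.Agent.Helper2_Pack (Motion)
open Pool.Agent.Helper2_Pak.H54

/-- the rotation by `90 k` degrees -/
noncomputable def ortM (k : ℕ) : Motion := ⟨Complex.I ^ k, 0, by simp⟩

theorem ort_eq (t : ℝ) (k : ℕ) : ort t k = (ortM k).app '' shape t := by
  unfold ort
  congr 1
  funext z
  show Complex.I ^ k * z = Complex.I ^ k * z + 0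
  rw [add_zero]

/-- interior points of a rotated shape -/
theorem mem_ort (s1 : S1Stmt) {t : ℝ} (h0 : 0 < t) (h1 : t ≤ 1 / 2 ^ 60) (k : ℕ) {z w : ℂ}
    (hw : w = (-Complex.I) ^ k * z)
    (h2 : lo t w.re < w.im) (h3 : w.im < hi t w.re) (h4 : lf t w.im < w.re)
    (h5 : w.re < rt t w.im) : z ∈ interior (ort t k) := by
  rw [ort_eq, show interior ((ortM k).app '' shape t) = (ortM k).app '' interior (shape t) from
    ((ortM k).homeo.image_interior _).symm, (ortM k).mem_image]
  have e : (starRingEnd ℂ) (ortM k).u * (z - (ortM k).v) = w := by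
    show (starRingEnd ℂ) (Complex.I ^ k) * (z - 0) = w
    rw [map_pow, Complex.conj_I, sub_zero, hw]
  rw [e]
  exact (s1 t h0 h1).1 ⟨h2, h3, h4, h5⟩

theorem chamf_le' {t w e : ℝ} (h0 : 0 ≤ t) (h : |e| ≤ w) : chamf t w e ≤ t :=
  max_le h0 (by linarith)

/-- the windows avoid the slits and the pits -/
theorem window {k : ℕ} {l x : ℝ}
    (hl : l = 0 ∨ |l| = 1 / 8 ∨ |l| = 3 / 8 ∨ (|l| = 1 / 4 ∧ k ≤ 1)) (hz : |x - l| ≤ 1 / 32) :
    |x| ≤ 13 / 32 ∧ (1 / 64 ≤ |x + 1 / 16| ∧ 1 / 64 ≤ |x - 1 / 16|) ∧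
    (1 / 64 ≤ |x + 5 / 16| ∧ 1 / 64 ≤ |x + 3 / 16| ∧ 1 / 64 ≤ |x - 3 / 16| ∧
      1 / 64 ≤ |x - 5 / 16|) ∧
    (2 ≤ k → 1 / 64 ≤ |x + 1 / 4| ∧ 1 / 64 ≤ |x - 1 / 4|) := by
  -- the abscissa
  have hxw : (|x| ≤ 1 / 32) ∨ (3 / 32 ≤ |x| ∧ |x| ≤ 5 / 32) ∨ (11 / 32 ≤ |x| ∧ |x| ≤ 13 / 32) ∨
      (7 / 32 ≤ |x| ∧ |x| ≤ 9 / 32 ∧ k ≤ 1) := by
    have q1 : |x| ≤ |x - l| + |l| := by
      calc |x| = |(x - l) + l| := by rw [sub_add_cancel]
        _ ≤ |x - l| + |l| := abs_add_le _ _
    have q2 : |l| ≤ |x - l| + |x| := by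
      calc |l| = |x - (x - l)| := by rw [sub_sub_cancel]
        _ ≤ |x| + |x - l| := abs_sub _ _
        _ = |x - l| + |x| := add_comm _ _
    rcases hl with h | h | h | ⟨h, h'⟩
    · left
      rw [h, sub_zero] at hz
      exact hz
    · right; left
      rw [h] at q1 q2
      exact ⟨by linarith, by linarith⟩
    · right; right; left
      rw [h] at q1 q2
      exact ⟨by linarith, by linarith⟩
    · right; right; right
      rw [h] at q1 q2
      exact ⟨by linarith, by linarith, h'⟩
  have hxa : |x| ≤ 13 / 32 := by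
    rcases hxw with h | ⟨-, h⟩ | ⟨-, h⟩ | ⟨-, h, -⟩ <;> linarith
  -- the abscissa and the slits
  have hsl : 1 / 64 ≤ |x + 1 / 16| ∧ 1 / 64 ≤ |x - 1 / 16| := by
    rcases hxw with h | ⟨h, -⟩ | ⟨h, -⟩ | ⟨h, -, -⟩
    · obtain ⟨h2, h3⟩ := abs_le.1 h
      exact ⟨le_abs_of (Or.inl (by linarith)), le_abs_of (Or.inr (by linarith))⟩
    all_goals
      rcases le_abs.1 h with h | h
      · exact ⟨le_abs_of (Or.inl (by linarith)), le_abs_of (Or.inl (by linarith))⟩
      · exact ⟨le_abs_of (Or.inr (by linarith)), le_abs_of (Or.inr (by linarith))⟩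
  -- the abscissa and the pits of the right side
  have hpr : 1 / 64 ≤ |x + 5 / 16| ∧ 1 / 64 ≤ |x + 3 / 16| ∧ 1 / 64 ≤ |x - 3 / 16| ∧
      1 / 64 ≤ |x - 5 / 16| := by
    rcases hxw with h | ⟨h, h'⟩ | ⟨h, h'⟩ | ⟨h, h', -⟩
    · obtain ⟨h2, h3⟩ := abs_le.1 h
      exact ⟨le_abs_of (Or.inl (by linarith)), le_abs_of (Or.inl (by linarith)),
        le_abs_of (Or.inr (by linarith)), le_abs_of (Or.inr (by linarith only [h3]))⟩
    · obtain ⟨h2, h3⟩ := abs_le.1 h'
      exact ⟨le_abs_of (Or.inl (by linarith only [h2])), le_abs_of (Or.inl (by linarith only [h2])),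
        le_abs_of (Or.inr (by linarith only [h3])), le_abs_of (Or.inr (by linarith only [h3]))⟩
    · rcases le_abs.1 h with h | h
      · exact ⟨le_abs_of (Or.inl (by linarith only [h])), le_abs_of (Or.inl (by linarith only [h])),
          le_abs_of (Or.inl (by linarith)), le_abs_of (Or.inl (by linarith))⟩
      · exact ⟨le_abs_of (Or.inr (by linarith)), le_abs_of (Or.inr (by linarith only [h])),
          le_abs_of (Or.inr (by linarith only [h])), le_abs_of (Or.inr (by linarith))⟩
    · obtain ⟨h2, h3⟩ := abs_le.1 h'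
      rcases le_abs.1 h with h | h
      · exact ⟨le_abs_of (Or.inl (by linarith only [h])), le_abs_of (Or.inl (by linarith only [h])),
          le_abs_of (Or.inl (by linarith only [h])), le_abs_of (Or.inr (by linarith only [h3]))⟩
      · exact ⟨le_abs_of (Or.inl (by linarith only [h2])), le_abs_of (Or.inr (by linarith only [h])),
          le_abs_of (Or.inr (by linarith only [h])), le_abs_of (Or.inr (by linarith only [h3]))⟩
  -- the abscissa and the positions `±1/4`
  have hq : 2 ≤ k → 1 / 64 ≤ |x + 1 / 4| ∧ 1 / 64 ≤ |x - 1 / 4| := by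
    intro hk2
    rcases hxw with h | ⟨h, h'⟩ | ⟨h, h'⟩ | ⟨h, h', h''⟩
    · obtain ⟨h2, h3⟩ := abs_le.1 h
      exact ⟨le_abs_of (Or.inl (by linarith only [h2])), le_abs_of (Or.inr (by linarith only [h3]))⟩
    · obtain ⟨h2, h3⟩ := abs_le.1 h'
      exact ⟨le_abs_of (Or.inl (by linarith only [h2])), le_abs_of (Or.inr (by linarith only [h3]))⟩
    · rcases le_abs.1 h with h | h
      · exact ⟨le_abs_of (Or.inl (by linarith only [h])), le_abs_of (Or.inl (by linarith only [h]))⟩
      · exact ⟨le_abs_of (Or.inr (by linarith only [h])), le_abs_of (Or.inr (by linarith only [h]))⟩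
    · omega
  exact ⟨hxa, hsl, hpr, hq⟩

theorem f1 (s1 : S1Stmt) : F1Stmt := by
  intro t k l z h0 h1 hk hl hz hy1 hy2
  obtain ⟨p1, p2, p3, p4, p5, p6, p7, p8, p9⟩ := pw h0 h1
  obtain ⟨a1, a2, a3, a4, a5, a6, a7, a8⟩ := par h0 h1
  have hh1 : 1 / 2 ≤ hh t := by unfold hh; linarith only [p2]
  have hh2 : hh t ≤ 1 / 2 + t := by unfold hh; linarith only [p3, p5, p6, p7]
  set x : ℝ := z.re with hx
  set y : ℝ := z.im with hy
  obtain ⟨hxa, hsl, hpr, hq⟩ := window hl hz
  obtain ⟨x1, x2⟩ := abs_le.1 hxa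
  have hnx : |-x| = |x| := abs_neg x
  have flip : ∀ c : ℝ, |-x + c| = |x - c| := fun c => by
    rw [← abs_neg]; congr 1; ring
  have flip' : ∀ c : ℝ, |-x - c| = |x + c| := fun c => by
    rw [← abs_neg]; congr 1; ring
  have hc2 : chamf t (hh t) x = 0 := chamf_zero (by linarith only [h1, hh1, hxa])
  have hc2' : chamf t (hh t) (-x) = 0 := chamf_zero (by rw [hnx]; linarith only [h1, hh1, hxa])
  have hc1 : chamf t (1 / 2) x = 0 := chamf_zero (by linarith only [h1, hxa])
  have hc1' : chamf t (1 / 2) (-x) = 0 := chamf_zero (by rw [hnx]; linarith only [h1, hxa])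
  interval_cases k
  · -- orientation 0
    have hH : HY t 0 = hh t := by simp [HY]
    rw [hH] at hy1 hy2
    have hya : |y| ≤ hh t := by rw [abs_of_nonneg (by linarith only [hh1, hy1])]; exact hy2.le
    have hc := chamf_le' h0.le hya
    refine mem_ort s1 h0 h1 0 (w := z) (by simp) ?_ ?_ ?_ ?_
    · have := lo_le h0 x
      show lo t x < y
      linarith only [h1, p5, hh1, hc1, hy1, this]
    · have := le_hi t x
      show y < hi t x
      linarith only [hc1, hy2, this]
    · have := lf_le h0 h1 (y := y) (le_abs_of (Or.inl (by linarith only [h1, p5, p9, hh1, hy1])))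
        (le_abs_of (Or.inl (by linarith only [h1, p5, p9, hh1, hy1])))
      show lf t y < x
      linarith only [h1, p5, x1, hc, this]
    · have := le_rt h0 h1 y
      show x < rt t y
      linarith only [h1, p5, x2, hc, this]
  · -- orientation 1
    have hH : HY t 1 = 1 / 2 := by simp [HY]
    rw [hH] at hy1 hy2
    have hya : |y| ≤ 1 / 2 := by rw [abs_of_nonneg (by linarith only [hy1])]; exact hy2.le
    have hc := chamf_le' h0.le hya
    refine mem_ort s1 h0 h1 1 (w := ⟨y, -x⟩) (by apply Complex.ext <;> simp [hx, hy]) ?_ ?_ ?_ ?_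
    · have := lo_le h0 y
      show lo t y < -x
      linarith only [h1, p5, hh1, x2, hc, this]
    · have := le_hi t y
      show -x < hi t y
      linarith only [h1, hh1, x1, hc, this]
    · have := lf_le h0 h1 (y := -x) (by rw [flip]; linarith only [h1, p5, p9, hsl.2])
        (by rw [flip']; linarith only [h1, p5, p9, hsl.1])
      show lf t (-x) < y
      linarith only [h1, p5, hc2', hy1, this]
    · show y < rt t (-x)
      unfold rt
      rw [pit_zero a2 (e := -x + 5 / 16) (by rw [flip]; exact hpr.2.2.2),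
        pit_zero a3 (e := -x + 3 / 16) (by rw [flip]; exact hpr.2.2.1),
        pit_zero a3 (e := -x - 3 / 16) (by rw [flip']; exact hpr.2.1),
        pit_zero a2 (e := -x - 5 / 16) (by rw [flip']; exact hpr.1), hc2']
      linarith only [hy2]
  · -- orientation 2
    have hH : HY t 2 = hh t := by simp [HY]
    rw [hH] at hy1 hy2
    have hya : |-y| ≤ hh t := by rw [abs_neg, abs_of_nonneg (by linarith only [hh1, hy1])]; exact hy2.le
    have hc := chamf_le' h0.le hya
    obtain ⟨q1, q2⟩ := hq le_rfl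
    refine mem_ort s1 h0 h1 2 (w := ⟨-x, -y⟩) (by apply Complex.ext <;> simp [hx, hy]) ?_ ?_ ?_ ?_
    · show lo t (-x) < -y
      unfold lo
      rw [dent_zero h0 (e := -x + 1 / 4) (by rw [flip]; exact q2),
        dent_zero h0 (e := -x - 1 / 4) (by rw [flip']; exact q1), hc1']
      linarith only [hy2]
    · have := le_hi t (-x)
      show -y < hi t (-x)
      linarith only [hh1, hc1', hy1, this]
    · have := lf_le h0 h1 (y := -y) (le_abs_of (Or.inr (by linarith only [h1, p5, p9, hh1, hy1])))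
        (le_abs_of (Or.inr (by linarith only [h1, p5, p9, hh1, hy1])))
      show lf t (-y) < -x
      linarith only [h1, p5, x2, hc, this]
    · have := le_rt h0 h1 (-y)
      show -x < rt t (-y)
      linarith only [h1, p5, x1, hc, this]
  · -- orientation 3
    have hH : HY t 3 = 1 / 2 := by simp [HY]
    rw [hH] at hy1 hy2
    have hya : |-y| ≤ 1 / 2 := by rw [abs_neg, abs_of_nonneg (by linarith only [hy1])]; exact hy2.le
    have hc := chamf_le' h0.le hya
    obtain ⟨q1, q2⟩ := hq (by norm_num)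
    have hI3 : (-Complex.I) ^ 3 = Complex.I := by
      have h := Complex.I_sq
      calc (-Complex.I) ^ 3 = -(Complex.I ^ 2) * Complex.I := by ring
        _ = Complex.I := by rw [h]; ring
    refine mem_ort s1 h0 h1 3 (w := ⟨-y, x⟩)
      (by rw [hI3]; apply Complex.ext <;> simp [hx, hy]) ?_ ?_ ?_ ?_
    · have := lo_le h0 (-y)
      show lo t (-y) < x
      linarith only [h1, p5, hh1, x1, hc, this]
    · have := le_hi t (-y)
      show x < hi t (-y)
      linarith only [h1, hh1, x2, hc, this]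
    · show lf t x < -y
      unfold lf
      rw [pit_zero a1 (e := x + 1 / 4) q1, pit_zero a1 (e := x - 1 / 4) q2,
        slit_zero h0 a7 (e := x + 1 / 16) (by linarith only [h1, p5, p9, hsl.1]),
        slit_zero h0 a8 (e := x - 1 / 16) (by linarith only [h1, p5, p9, hsl.2]), hc2]
      linarith only [hy2]
    · have := le_rt h0 h1 x
      show -y < rt t x
      linarith only [h1, p5, hc2, hy1, this]

end Pool.Agent.Helper2_Pak.H72
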