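import Pool.Agent.Helper72_Pak.F1

/-!
# F2: placed tiles are solid below the line of the top side
-/

namespace Pool.Agent.Helper2_Pak.H72

open Pool.Agent.Helper2_Pack (Motion)

theorem I_pow_mul (k : ℕ) : (-Complex.I) ^ k * Complex.I ^ k = 1 := by
  rw [← mul_pow, neg_mul, Complex.I_mul_I, neg_neg, one_pow]

theorem norm_rot (g : Motion) (k : ℕ) : ‖rot g k‖ = 1 := by
  unfold rot
  rw [norm_mul, norm_pow, norm_neg, Complex.norm_I, one_pow, mul_one, g.unit]

/-- the small rotation as a motion -/
noncomputable def rotM (g : Motion) (k : ℕ) : Motion := ⟨rot g k, g.v, norm_rot g k⟩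

theorem tile_eq (t : ℝ) (g : Motion) (k : ℕ) : tile t g = (rotM g k).app '' ort t k := by
  unfold tile ort
  rw [Set.image_image]
  congr 1
  funext z
  show g.u * z + g.v = g.u * (-Complex.I) ^ k * (Complex.I ^ k * z) + g.v
  have h := I_pow_mul k
  linear_combination (-(g.u * z)) * h

/-- points of the interior of a placed tile in local coordinates -/
theorem mem_tile {t : ℝ} (g : Motion) (k : ℕ) {z : ℂ} (h : (⟨(rot g k).re * (z.re - g.v.re) +
    (rot g k).im * (z.im - g.v.im), (rot g k).re * (z.im - g.v.im) -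
    (rot g k).im * (z.re - g.v.re)⟩ : ℂ) ∈ interior (ort t k)) : z ∈ interior (tile t g) := by
  rw [tile_eq t g k, show interior ((rotM g k).app '' ort t k) =
    (rotM g k).app '' interior (ort t k) from ((rotM g k).homeo.image_interior _).symm,
    (rotM g k).mem_image]
  have e : (starRingEnd ℂ) (rotM g k).u * (z - (rotM g k).v) =
      ⟨(rot g k).re * (z.re - g.v.re) + (rot g k).im * (z.im - g.v.im),
        (rot g k).re * (z.im - g.v.im) - (rot g k).im * (z.re - g.v.re)⟩ := by
    show (starRingEnd ℂ) (rot g k) * (z - g.v) = _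
    apply Complex.ext
    · simp only [Complex.mul_re, Complex.conj_re, Complex.conj_im, Complex.sub_re,
        Complex.sub_im]
      ring
    · simp only [Complex.mul_im, Complex.conj_re, Complex.conj_im, Complex.sub_re,
        Complex.sub_im]
      ring
  rw [e]
  exact h

/-- the rotation is close to `1` -/
theorem rot_near {e : ℝ} {a : ℂ} {k : ℕ} {g : Motion} (h : NearK e a k g) :
    |(rot g k).re - 1| ≤ e ∧ |(rot g k).im| ≤ e := by
  have h1 : ‖rot g k - 1‖ ≤ e := by
    have h2 : rot g k - 1 = (g.u - Complex.I ^ k) * (-Complex.I) ^ k := by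
      unfold rot
      have h := I_pow_mul k
      linear_combination h
    rw [h2, norm_mul, norm_pow, norm_neg, Complex.norm_I, one_pow, mul_one]
    exact h.2.2.2
  have h3 := (Complex.abs_re_le_norm (rot g k - 1)).trans h1
  have h4 := (Complex.abs_im_le_norm (rot g k - 1)).trans h1
  simp only [Complex.sub_re, Complex.one_re, Complex.sub_im, Complex.one_im, sub_zero] at h3 h4
  exact ⟨h3, h4⟩

/-- products with a small factor -/
theorem small_mul {s x e b : ℝ} (hs : |s| ≤ e) (hx : |x| ≤ b) : |s * x| ≤ e * b := by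
  rw [abs_mul]
  exact mul_le_mul hs hx (abs_nonneg _) ((abs_nonneg _).trans hs)

theorem f2 (f1 : F1Stmt) : F2Stmt := by
  intro t g a k l x y h0 h1 hg hl hx hy1 hy2
  obtain ⟨hc, hs⟩ := rot_near hg
  obtain ⟨hk, hv1, hv2, -⟩ := hg
  apply mem_tile g k
  unfold tpL at hy1 hy2
  set c : ℝ := (rot g k).re with hcd
  set s : ℝ := (rot g k).im with hsd
  obtain ⟨c1, c2⟩ := abs_le.1 hc
  have hcp : 0 < c := by linarith only [c1]
  have hl2 : |l| ≤ 3 / 8 := by
    rcases hl with h | h | h | ⟨h, -⟩
    · rw [h, abs_zero]; norm_num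
    all_goals linarith only [h]
  obtain ⟨l1, l2⟩ := abs_le.1 hl2
  obtain ⟨x1, x2⟩ := abs_le.1 hx
  simp only [Complex.sub_re, Complex.sub_im] at hv1 hv2
  obtain ⟨v1, v2⟩ := abs_le.1 hv1
  obtain ⟨v3, v4⟩ := abs_le.1 hv2
  have hxv : |x - g.v.re| ≤ 2 / 5 := abs_le.2 ⟨by linarith only [l1, x1, v2], by linarith only [l2, x2, v1]⟩
  obtain ⟨xv1, xv2⟩ := abs_le.1 hxv
  have hH1 : 1 / 2 ≤ HY t k := by
    unfold HY hh
    split_ifs
    · have := sq_nonneg t
      linarith only [this]
    · exact le_rfl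
  have hH2 : HY t k ≤ 129 / 256 := by
    unfold HY hh
    split_ifs
    · have : t ^ 2 ≤ 1 / 128 := by
        have h2 : t ≤ 1 / 128 := h1.trans (by norm_num)
        nlinarith only [h0, h1]
      linarith only [this]
    · norm_num
  -- the local ordinate
  have e1 : c * (HY t k / c) = HY t k := by field_simp
  have e2 : c * (s / c * (x - g.v.re)) = s * (x - g.v.re) := by field_simp
  have i1 : c * (y - g.v.im) - s * (x - g.v.re) < HY t k := by
    have h2 := mul_lt_mul_of_pos_left hy2 hcp
    have h3 : c * (g.v.im + HY t k / c + s / c * (x - g.v.re)) =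
        c * g.v.im + c * (HY t k / c) + c * (s / c * (x - g.v.re)) := by ring
    rw [h3, e1, e2] at h2
    linarith only [h2]
  have i2 : HY t k - 1 / 4 * c < c * (y - g.v.im) - s * (x - g.v.re) := by
    have h2 := mul_lt_mul_of_pos_left hy1 hcp
    have h3 : c * (g.v.im + HY t k / c + s / c * (x - g.v.re) - 1 / 4) =
        c * g.v.im + c * (HY t k / c) + c * (s / c * (x - g.v.re)) - 1 / 4 * c := by ring
    rw [h3, e1, e2] at h2
    linarith only [h2]
  have b1 := abs_le.1 (small_mul hs hxv)
  have hyv : |y - g.v.im| ≤ 3 / 4 := by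
    have j1 : c * (y - g.v.im) < 17 / 32 := by linarith only [hH2, i1, b1.2]
    have j2 : 0 < c * (y - g.v.im) := by linarith only [c2, hH1, i2, b1.1]
    have j3 : 0 < y - g.v.im := by
      by_contra hcon
      push Not at hcon
      nlinarith only [c2, hH1, i2, b1, hcon, c1]
    rw [abs_of_pos j3]
    by_contra hcon
    push Not at hcon
    nlinarith only [hy2, hH2, e1, e2, b1, hcon, c1]
  have b2 := abs_le.1 (small_mul hs hyv)
  have b3 := abs_le.1 (small_mul hc hxv)
  apply f1 t k l _ h0 h1 hk hl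
  · show |c * (x - g.v.re) + s * (y - g.v.im) - l| ≤ 1 / 32
    have e3 : c * (x - g.v.re) = (x - g.v.re) + (c - 1) * (x - g.v.re) := by ring
    rw [e3]
    refine abs_le.2 ⟨?_, ?_⟩
    · linarith only [x1, v2, b2.1, b3.1]
    · linarith only [x2, v1, b2.2, b3.2]
  · show HY t k - 3 / 8 < c * (y - g.v.im) - s * (x - g.v.re)
    linarith only [c2, i2]
  · exact i1

end Pool.Agent.Helper2_Pak.H72
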